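import Pool.Agent.J6H54.CG.Stm

/-!
# The window lemma
-/

set_option autoImplicit false

namespace Pool.Agent.J6H24.CG07

open Pool.Agent.J6H54.CG

variable {k : ℕ} {T : Finset Pt}

/-! ### Visits -/

theorem vis_cons (j : ℤ) (R : ℕ) (s : ℤ) (a : Pt) (w : List Pt) :
    vis j R s (a :: w) = (if (s - j).natAbs ≤ R then 1 else 0) + vis j R (s + a.2) w := by
  unfold vis
  rw [Finset.card_filter, Finset.card_filter, List.length_cons, Finset.sum_range_succ']
  rw [add_comm]
  congr 1
  · simp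
  · refine Finset.sum_congr rfl fun i _ => ?_
    rw [List.take_succ_cons, ht_cons, add_assoc]

theorem vis_nil (j : ℤ) (R : ℕ) (s : ℤ) :
    vis j R s [] = if (s - j).natAbs ≤ R then 1 else 0 := by
  unfold vis
  rw [Finset.card_filter]
  simp

theorem vis_append (j : ℤ) (R : ℕ) (s : ℤ) (u v : List Pt) :
    vis j R s (u ++ v) ≤ vis j R s u + vis j R (s + ht u) v := by
  induction u generalizing s with
  | nil => simp
  | cons a u ih =>
    rw [List.cons_append, vis_cons, vis_cons, ht_cons, ← add_assoc]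
    have := ih (s + a.2)
    omega

theorem vis_le (j : ℤ) (R : ℕ) (s : ℤ) (w : List Pt) : vis j R s w ≤ w.length + 1 := by
  unfold vis
  refine (Finset.card_filter_le _ _).trans ?_
  rw [Finset.card_range]

theorem vis_av {j : ℤ} {R : ℕ} {s : ℤ} {w : List Pt} (h : Av j R s w) : vis j R s w = 0 := by
  unfold vis
  rw [Finset.card_eq_zero, Finset.filter_eq_empty_iff]
  intro i hi
  rw [Finset.mem_range] at hi
  exact not_le.2 (h i (by omega))

/-! ### Costs in absolute coordinates -/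

/-- the length of an element which goes from the height `h` to `h'` and contributes `x` -/
noncomputable def rc (k : ℕ) (T : Finset Pt) (h : ℤ) (x : ℚ) (h' : ℤ) : ℕ :=
  len k T ((k : ℚ) ^ (-h) * x, h' - h)

theorem rc_add (hT : Gen k T) (h1 h2 h3 : ℤ) {x y : ℚ} (hx : KA k x) (hy : KA k y) :
    rc k T h1 (x + y) h3 ≤ rc k T h1 x h2 + rc k T h2 y h3 := by
  unfold rc
  have h := len_add hT (x := (k : ℚ) ^ (-h1) * x) (y := (k : ℚ) ^ (-h2) * y) (m := h2 - h1)
    (n := h3 - h2) (ka_shift hT.two_le hx _) (ka_shift hT.two_le hy _)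
  have e1 : (k : ℚ) ^ (-h1) * x + (k : ℚ) ^ (h2 - h1) * ((k : ℚ) ^ (-h2) * y) =
      (k : ℚ) ^ (-h1) * (x + y) := by
    rw [← mul_assoc, ← zpow_add₀ (kne hT.two_le), mul_add]
    congr 3
    ring
  have e2 : h2 - h1 + (h3 - h2) = h3 - h1 := by ring
  rw [e1, e2] at h
  exact h

theorem rc_vert (hT : Gen k T) {R : ℕ} (hB : Bd k T R) (h h' : ℤ) :
    rc k T h 0 h' ≤ R * (h' - h).natAbs := by
  unfold rc
  rw [mul_zero]
  exact len_vert hT hB _

theorem rc_word (hT : Gen k T) {u : List Pt} (hu : Wd T u) (h : ℤ) :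
    rc k T h ((k : ℚ) ^ h * (val k u).1) (h + ht u) ≤ u.length := by
  unfold rc
  have e1 : (k : ℚ) ^ (-h) * ((k : ℚ) ^ h * (val k u).1) = (val k u).1 := by
    rw [← mul_assoc, ← zpow_add₀ (kne hT.two_le)]
    simp
  have e2 : h + ht u - h = (val k u).2 := by rw [val_snd]; ring
  rw [e1, e2]
  exact len_le hu

/-- the contribution of a concatenation -/
theorem con_append (hk : 2 ≤ k) (s : ℤ) (u v : List Pt) :
    (k : ℚ) ^ s * (val k (u ++ v)).1 =
      (k : ℚ) ^ s * (val k u).1 + (k : ℚ) ^ (s + ht u) * (val k v).1 := by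
  rw [val_append_fst hk, mul_add, ← mul_assoc, ← zpow_add₀ (kne hk)]

/-! ### The numerical estimate -/

theorem bound {n c C : ℕ} (h : n ≤ c + 2 * C * Nat.log 2 n) :
    n ≤ c + 2 * C * (2 * (c + 4 * C) + 1) := by
  rcases Nat.eq_zero_or_pos n with h0 | h0
  · rw [h0]; exact Nat.zero_le _
  set l := Nat.log 2 n with hl
  have h1 : 2 ^ l ≤ n := Nat.pow_log_le_self 2 h0.ne'
  set m := l / 2 with hm
  have h2 : m + 1 ≤ 2 ^ m := Nat.lt_two_pow_self
  have h3 : (m + 1) * (m + 1) ≤ 2 ^ l := by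
    calc (m + 1) * (m + 1) ≤ 2 ^ m * 2 ^ m := Nat.mul_le_mul h2 h2
      _ = 2 ^ (m + m) := (pow_add _ _ _).symm
      _ ≤ 2 ^ l := Nat.pow_le_pow_right (by norm_num) (by omega)
  have h4 : l ≤ 2 * m + 1 := by omega
  have h5 : (m + 1) * (m + 1) ≤ (c + 4 * C) * (m + 1) := by
    have h6 : 2 * C * l ≤ 2 * C * (2 * m + 1) := Nat.mul_le_mul_left _ h4
    nlinarith
  have h6 : m + 1 ≤ c + 4 * C := Nat.le_of_mul_le_mul_right h5 (Nat.succ_pos m)
  have h7 : l ≤ 2 * (c + 4 * C) + 1 := by omega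
  exact h.trans (Nat.add_le_add_left (Nat.mul_le_mul_left _ h7) _)

/-! ### The first exit -/

theorem exit_or (j : ℤ) (D : ℕ) (s : ℤ) (w : List Pt) :
    Inn j D s w ∨ ∃ u v, w = u ++ v ∧ Inn j D s u ∧ D < (s + ht u - j).natAbs := by
  classical
  by_cases h : ∃ i, i ≤ w.length ∧ D < (s + ht (w.take i) - j).natAbs
  · right
    obtain ⟨h1, h2⟩ := Nat.find_spec h
    refine ⟨w.take (Nat.find h), w.drop (Nat.find h), (List.take_append_drop _ _).symm, ?_, h2⟩
    intro i _ hi
    rw [List.length_take, min_eq_left h1] at hi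
    rw [List.take_take, min_eq_left hi.le]
    have h3 := Nat.find_min h hi
    by_contra h4
    exact h3 ⟨by omega, not_le.1 h4⟩
  · left
    intro i _ hi
    by_contra h4
    exact h ⟨i, hi.le, not_le.1 h4⟩

/-- **CG-07**: geodesic words visit the neighbourhood of each height a bounded number of times. -/
theorem m07 (h2 : S_metric) (h3 : S_in) (h4 : S_inside) (h5 : S_split) (h6 : S_collect) :
    S_window := by
  intro k T R hT hB
  have hk := hT.two_le
  have hR := hB.one_le
  set D : ℕ := R + 2 * R ^ 3 with hD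
  have hRD : R ≤ D := Nat.le_add_right _ _
  obtain ⟨Λ, hΛ⟩ := h4 k T R D hT hB
  obtain ⟨C, hC⟩ := h2 k T R hT hB
  set c : ℕ := 2 * (R * (6 * D + 2 * R)) + 2 * (C * (2 * D + 4 * R + 2)) with hc
  set N : ℕ := c + 2 * C * (2 * (c + 4 * C) + 1) with hN
  refine ⟨3 * Λ + 2 * N + 5, fun j s w hw => ?_⟩
  rcases exit_or j D s w with h | ⟨w0, w1, rfl, hw0, hs1⟩
  · have h7 := hΛ j s w hw h
    have h8 := vis_le j R s w
    omega
  have hl0 : w0.length ≤ Λ := hΛ j s w0 (hw.left hT) hw0
  have hg1 : Geo k T w1 := hw.right hT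
  have hv0 := vis_append j R s w0 w1
  have hv0' := vis_le j R s w0
  set s1 : ℤ := s + ht w0 with hs1def
  rcases h5 k T R D j s1 w1 hB hg1.1 hRD hs1 with ⟨e1, e2, rfl, he1, he2⟩ |
    ⟨o, t, w2, rfl, ht0, ho, ho1, ho2, hti, hw2, hw2', hlen⟩
  · -- no second excursion
    have h7 : e2.length ≤ Λ := by
      refine hΛ j (s1 + ht e1) e2 (hg1.right hT) fun i hi hi' => ?_
      exact he2 i hi hi'.le
    have h8 := vis_append j R s1 e1 e2
    rw [vis_av he1] at h8
    have h9 := vis_le j R (s1 + ht e1) e2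
    omega
  have hgt : Geo k T t := hg1.mid hT
  have hg2 : Geo k T w2 := hg1.right hT
  have hlt : t.length ≤ Λ := hΛ j (s1 + ht o) t hgt hti
  set s2 : ℤ := s1 + ht o + ht t with hs2def
  obtain ⟨xu, xl, y, nu, nl, τ, M, ae, e, he, hval, hae, hae', hxu, hxl, hy, hy', hnu, hnl, hsum, hM,
    hvis⟩ := h6 k T R D Λ hT hB hRD hΛ j s2 w2 hg2 hw2 hw2'
  -- the contribution of `t`
  have hin := h3 k T R hk hB t (j - D - R) (j + D + R) (s1 + ht o) hgt.1 (by
    intro i hi
    rcases Nat.eq_zero_or_pos i with rfl | hpos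
    · rw [List.take_zero, ht_nil, add_zero]
      omega
    · have := hti i hpos hi
      omega)
  set yt : ℚ := (k : ℚ) ^ (s1 + ht o) * (val k t).1 with hyt
  have hy1 : Kad k (D + 2 * R - j) (y + yt) := by
    refine kad_add hy ?_
    have : (R : ℤ) - (j - D - R) = D + 2 * R - j := by ring
    rw [this] at hin
    exact hin.1
  have hy2 : |y + yt| ≤ ((τ + t.length : ℕ) : ℚ) * (k : ℚ) ^ (j + D + 2 * R) := by
    have h7 : (j + D + R + R : ℤ) = j + D + 2 * R := by ring
    have h8 := hin.2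
    rw [h7] at h8
    refine (abs_add_le _ _).trans ?_
    push_cast
    rw [add_mul]
    exact add_le_add hy' h8
  -- the length of the element `y'`
  have hℓ : rc k T j (y + yt) j ≤ C * (2 * D + 4 * R + 2 + Nat.log 2 (τ + t.length)) := by
    unfold rc
    rw [sub_self]
    have h7 : Kad k ((D + 2 * R : ℕ) : ℤ) ((k : ℚ) ^ (-j) * (y + yt)) := by
      have h8 := kad_shift hk hy1 (-j)
      have h9 : (D + 2 * R - j - -j : ℤ) = ((D + 2 * R : ℕ) : ℤ) := by push_cast; ring
      rw [h9] at h8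
      exact h8
    have hkp := kpos hk
    have h8 : |(k : ℚ) ^ (-j) * (y + yt)| ≤
        (k : ℚ) ^ (D + 2 * R + (Nat.log 2 (τ + t.length) + 1)) := by
      rw [abs_mul, abs_of_pos (zpow_pos hkp _)]
      calc (k : ℚ) ^ (-j) * |y + yt| ≤
          (k : ℚ) ^ (-j) * (((τ + t.length : ℕ) : ℚ) * (k : ℚ) ^ (j + D + 2 * R)) :=
            mul_le_mul_of_nonneg_left hy2 (zpow_pos hkp _).le
        _ = ((τ + t.length : ℕ) : ℚ) * (k : ℚ) ^ (D + 2 * R) := by
            rw [mul_left_comm, ← zpow_add₀ (kne hk)]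
            congr 1
            rw [← zpow_natCast]
            congr 1
            push_cast
            ring
        _ ≤ (k : ℚ) ^ (Nat.log 2 (τ + t.length) + 1) * (k : ℚ) ^ (D + 2 * R) := by
            refine mul_le_mul_of_nonneg_right ?_ (pow_pos hkp _).le
            have h9 : τ + t.length < 2 ^ (Nat.log 2 (τ + t.length) + 1) :=
              Nat.lt_pow_succ_log_self (by norm_num) _
            have h10 : τ + t.length ≤ k ^ (Nat.log 2 (τ + t.length) + 1) :=
              h9.le.trans (Nat.pow_le_pow_left hk _)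
            exact_mod_cast h10
        _ = _ := by rw [← pow_add]; congr 1; ring
    refine (hC _ _ _ h7 h8).trans (Nat.mul_le_mul_left _ ?_)
    omega
  -- the total length
  have hKt : KA k yt := ka_shift hk (ka_val hT hgt.1) _
  have hKy : KA k (y + yt) := ka_add hk (ka_of_kad hk hy) hKt
  have hwd : Wd T (w0 ++ o) := hw.1.left.append hg1.1.left.left
  have hKe : KA k ((k : ℚ) ^ ae * (val k e).1) := ka_shift hk (ka_val hT he) _
  have hKo : KA k ((k : ℚ) ^ s * (val k (w0 ++ o)).1) := ka_shift hk (ka_val hT hwd) _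
  have key : (w0 ++ (o ++ t ++ w2)).length ≤ (w0 ++ o).length + R * (6 * D + 2 * R) + nu + nl +
      rc k T j (y + yt) j + e.length := by
    have e0 : val k (w0 ++ (o ++ t ++ w2)) = ((k : ℚ) ^ (-s) * ((k : ℚ) ^ s *
        (val k (w0 ++ (o ++ t ++ w2))).1), s + ht (w0 ++ (o ++ t ++ w2)) - s) := by
      apply Prod.ext
      · show _ = (k : ℚ) ^ (-s) * ((k : ℚ) ^ s * (val k (w0 ++ (o ++ t ++ w2))).1)
        rw [← mul_assoc, ← zpow_add₀ (kne hk)]
        simp
      · show _ = s + ht (w0 ++ (o ++ t ++ w2)) - s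
        rw [val_snd]
        ring
    have e1 : (k : ℚ) ^ s * (val k (w0 ++ (o ++ t ++ w2))).1 =
        (k : ℚ) ^ s * (val k (w0 ++ o)).1 + (0 + (xu + (0 + (xl + (0 + ((y + yt) +
          (0 + (k : ℚ) ^ ae * (val k e).1))))))) := by
      have h7 : w0 ++ (o ++ t ++ w2) = (w0 ++ o) ++ (t ++ w2) := by simp
      rw [h7, con_append hk, con_append hk (s + ht (w0 ++ o))]
      have h8 : s + ht (w0 ++ o) = s1 + ht o := by rw [ht_append, hs1def]; ring
      rw [h8, ← hyt, ← hs2def, hval]
      ring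
    have e2 : s + ht (w0 ++ (o ++ t ++ w2)) = ae + ht e := by
      rw [hae, hs2def, hs1def]
      simp only [ht_append]
      ring
    have h7 : (w0 ++ (o ++ t ++ w2)).length = rc k T s ((k : ℚ) ^ s * (val k (w0 ++ o)).1 +
        (0 + (xu + (0 + (xl + (0 + ((y + yt) +
          (0 + (k : ℚ) ^ ae * (val k e).1)))))))) (ae + ht e) := by
      unfold rc
      rw [← e1, ← e2, ← e0]
      exact hw.2.symm
    rw [h7]
    have g8 := ka_add hk (ka_zero (k := k)) hKe
    have g7 := ka_add hk hKy g8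
    have g6 := ka_add hk (ka_zero (k := k)) g7
    have g5 := ka_add hk hxl g6
    have g4 := ka_add hk (ka_zero (k := k)) g5
    have g3 := ka_add hk hxu g4
    have g2 := ka_add hk (ka_zero (k := k)) g3
    have a1 := rc_add hT s (s1 + ht o) (ae + ht e) hKo g2
    have a2 := rc_add hT (s1 + ht o) (j + D) (ae + ht e) (ka_zero (k := k)) g3
    have a3 := rc_add hT (j + D) (j + D) (ae + ht e) hxu g4
    have a4 := rc_add hT (j + D) (j - D) (ae + ht e) (ka_zero (k := k)) g5
    have a5 := rc_add hT (j - D) (j - D) (ae + ht e) hxl g6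
    have a6 := rc_add hT (j - D) j (ae + ht e) (ka_zero (k := k)) g7
    have a7 := rc_add hT j j (ae + ht e) hKy g8
    have a8 := rc_add hT j ae (ae + ht e) (ka_zero (k := k)) hKe
    have b1 : rc k T s ((k : ℚ) ^ s * (val k (w0 ++ o)).1) (s1 + ht o) ≤ (w0 ++ o).length := by
      have h8 := rc_word hT hwd s
      have h9 : s + ht (w0 ++ o) = s1 + ht o := by rw [ht_append, hs1def]; ring
      rw [h9] at h8
      exact h8
    have b2 : rc k T (s1 + ht o) 0 (j + D) ≤ R * (2 * D + R) :=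
      (rc_vert hT hB _ _).trans (Nat.mul_le_mul_left _ (by omega))
    have b3 : rc k T (j + D) xu (j + D) ≤ nu := by
      unfold rc
      rw [sub_self]
      exact hnu
    have b4 : rc k T (j + D) 0 (j - D) ≤ R * (2 * D) :=
      (rc_vert hT hB _ _).trans (Nat.mul_le_mul_left _ (by omega))
    have b5 : rc k T (j - D) xl (j - D) ≤ nl := by
      unfold rc
      rw [sub_self]
      exact hnl
    have b6 : rc k T (j - D) 0 j ≤ R * D :=
      (rc_vert hT hB _ _).trans (Nat.mul_le_mul_left _ (by omega))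
    have b8 : rc k T j 0 ae ≤ R * (D + R) :=
      (rc_vert hT hB _ _).trans (Nat.mul_le_mul_left _ (by omega))
    have b9 := rc_word hT he ae
    have b10 : R * (6 * D + 2 * R) = R * (2 * D + R) + R * (2 * D) + R * D + R * (D + R) := by ring
    omega
  -- the estimate of `τ`
  have hM' : 4 * (R * R * M) ≤ τ := by
    have h7 : 2 * (D - R) * M = R * (4 * (R * R * M)) := by
      have : D - R = 2 * R ^ 3 := by omega
      rw [this]
      ring
    rw [h7] at hM
    exact Nat.le_of_mul_le_mul_left hM hR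
  have hM1 : M ≤ R * R * M := by
    have : 1 * M ≤ R * R * M := Nat.mul_le_mul_right _ (Nat.mul_pos hR hR)
    omega
  have hn : τ + t.length ≤ c + 2 * C * Nat.log 2 (τ + t.length) := by
    simp only [List.length_append] at key
    have h7 : 2 * R * R * M = 2 * (R * R * M) := by ring
    rw [h7] at hsum
    have h8 : C * (2 * D + 4 * R + 2 + Nat.log 2 (τ + t.length)) =
        C * (2 * D + 4 * R + 2) + C * Nat.log 2 (τ + t.length) := by ring
    rw [h8] at hℓ
    have h9 : 2 * C * Nat.log 2 (τ + t.length) = 2 * (C * Nat.log 2 (τ + t.length)) := by ring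
    rw [h9, hc]
    omega
  have hn' := bound hn
  -- the visits
  have v1 := vis_append j R s1 (o ++ t) w2
  have v2 := vis_append j R s1 o t
  have v3 := vis_le j R (s1 + ht o) t
  rw [vis_av ho] at v2
  have h7 : s1 + ht (o ++ t) = s2 := by rw [ht_append, hs2def]; ring
  rw [h7] at v1
  omega

end Pool.Agent.J6H24.CG07
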